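import Pool.Agent.W300.FT.Stm

set_option autoImplicit false

namespace Pool.Agent.W770.FT
open Pool.Agent.W300.FT SimpleGraph

def ok : List (Fin 3) → Prop
  | [] => True
  | [_] => True
  | x :: y :: l => x ≠ y ∧ ok (y :: l)

def a (x : Fin 3) : List (Fin 3) → List (Fin 3)
  | [] => [x]
  | z :: m => if x = z then m else x :: z :: m

def T (y : Fin 3) : List (Fin 3) → List (Fin 3)
  | [] => [y]
  | [z] => if z = y then [] else [z, y]
  | z :: z' :: m => z :: T y (z' :: m)

theorem ok_tail {z : Fin 3} {m : List (Fin 3)} (h : ok (z :: m)) : ok m := by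
  cases m with
  | nil => trivial
  | cons w m => exact h.2

theorem ok_cons {x z : Fin 3} {m : List (Fin 3)} (h : ok (z :: m)) (hx : x ≠ z) :
    ok (x :: z :: m) := ⟨hx, h⟩

theorem a_ok (x : Fin 3) {l : List (Fin 3)} (h : ok l) : ok (a x l) := by
  cases l with
  | nil => trivial
  | cons z m =>
    by_cases hx : x = z
    · simp only [a, hx, if_true]
      exact ok_tail h
    · simp only [a, hx, if_false]
      exact ok_cons h hx

theorem a_head {z : Fin 3} {m : List (Fin 3)} (h : ok (z :: m)) : a z m = z :: m := by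
  cases m with
  | nil => rfl
  | cons w m =>
    have : z ≠ w := h.1
    simp [a, this]

theorem a_inv (x : Fin 3) {l : List (Fin 3)} (h : ok l) : a x (a x l) = l := by
  cases l with
  | nil => simp [a]
  | cons z m =>
    by_cases hx : x = z
    · subst hx
      have : a x (x :: m) = m := by simp [a]
      rw [this]
      exact a_head h
    · simp [a, hx]

theorem a_len (x : Fin 3) (l : List (Fin 3)) :
    (a x l).length = l.length + 1 ∨ (l.length = (a x l).length + 1 ∧ a x l = l.tail) := by
  cases l with
  | nil => left; rfl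
  | cons z m =>
    by_cases hx : x = z
    · right
      simp [a, hx]
    · left
      simp [a, hx]

theorem a_inj {x y : Fin 3} {l : List (Fin 3)} (h : a x l = a y l) : x = y := by
  cases l with
  | nil => simpa [a] using h
  | cons z m =>
    by_cases hx : x = z
    · by_cases hy : y = z
      · rw [hx, hy]
      · exfalso
        have := congrArg List.length h
        simp [a, hx, hy] at this
        omega
    · by_cases hy : y = z
      · exfalso
        have := congrArg List.length h
        simp [a, hx, hy] at this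
        omega
      · simp [a, hx, hy] at h
        exact h

theorem T_ok (y : Fin 3) : ∀ l : List (Fin 3), ok l → ok (T y l)
  | [], _ => trivial
  | [z], _ => by
    by_cases h : z = y
    · simp only [T, h, if_true]
      trivial
    · simp only [T, h, if_false]
      exact ⟨h, trivial⟩
  | [z, w], hz => by
    have hzw : z ≠ w := hz.1
    by_cases h : w = y
    · simp only [T, h, if_true]
      trivial
    · simp only [T, h, if_false]
      exact ⟨hzw, h, trivial⟩
  | z :: w :: v :: m, hz => by
    have h1 := T_ok y (w :: v :: m) hz.2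
    simp only [T] at h1 ⊢
    exact ⟨hz.1, h1⟩

theorem T_inv (y : Fin 3) : ∀ l : List (Fin 3), ok l → T y (T y l) = l
  | [], _ => by simp [T]
  | [z], _ => by
    by_cases h : z = y
    · simp [T, h]
    · simp [T, h]
  | [z, w], hz => by
    have hzw : z ≠ w := hz.1
    by_cases h : w = y
    · subst h
      simp [T, hzw]
    · simp [T, h]
  | z :: w :: v :: m, hz => by
    have h1 := T_inv y (w :: v :: m) hz.2
    simp only [T] at h1 ⊢
    rw [h1]

theorem T_comm (x y : Fin 3) : ∀ l : List (Fin 3), a x (T y l) = T y (a x l)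
  | [] => by
    by_cases h : x = y
    · simp [T, a, h]
    · simp [T, a, h]
  | [z] => by
    by_cases h : z = y
    · by_cases h2 : x = z
      · simp [T, a, h, h2]
      · have h3 : x ≠ y := fun h3 => h2 (h3.trans h.symm)
        simp [T, a, h, h3]
    · by_cases h2 : x = z
      · simp [T, a, h, h2]
      · simp [T, a, h, h2]
  | z :: w :: m => by
    by_cases h2 : x = z
    · simp [T, a, h2]
    · simp [T, a, h2]

theorem T_short : ∀ l : List (Fin 3), l ≠ [] → ∃ y, (T y l).length < l.length
  | [], h => absurd rfl h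
  | [z], _ => ⟨z, by simp [T]⟩
  | z :: w :: m, _ => by
    obtain ⟨y, hy⟩ := T_short (w :: m) (by simp)
    exact ⟨y, by simpa [T] using hy⟩

abbrev V : Type := {l : List (Fin 3) // ok l}

def GG : SimpleGraph V where
  Adj u v := ∃ x, v.1 = a x u.1
  symm := ⟨by
    rintro u v ⟨x, hx⟩
    exact ⟨x, by rw [hx, a_inv x u.2]⟩⟩
  loopless := ⟨by
    rintro u ⟨x, hx⟩
    have h1 := congrArg List.length hx
    rcases a_len x u.1 with h | h
    · omega
    · omega⟩

def nilV : V := ⟨[], trivial⟩

theorem adj_iff (u v : V) : GG.Adj u v ↔ ∃ x, v.1 = a x u.1 := Iff.rfl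

theorem reach : ∀ (n : ℕ) (u : V), u.1.length = n → GG.Reachable nilV u := by
  intro n
  induction n with
  | zero =>
    intro u hu
    have : u = nilV := Subtype.ext (List.length_eq_zero_iff.1 hu)
    rw [this]
  | succ n ih =>
    intro u hu
    obtain ⟨l, hl⟩ := u
    cases l with
    | nil => simp at hu
    | cons z m =>
      have h1 := ih ⟨m, ok_tail hl⟩ (by simpa using hu)
      refine h1.trans (Adj.reachable ?_)
      exact ⟨z, (a_head hl).symm⟩

theorem par {u v : V} (h : GG.Adj u v) (hl : v.1.length ≤ u.1.length) : v.1 = u.1.tail := by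
  obtain ⟨x, hx⟩ := h
  rcases a_len x u.1 with h | h
  · rw [hx] at hl
    omega
  · rw [hx, h.2]

theorem acyc : GG.IsAcyclic := by
  intro u c hc
  classical
  obtain ⟨w, hw, hmax⟩ := Finset.exists_max_image c.support.toFinset (fun v : V => v.1.length)
    ⟨u, by simp⟩
  have hw' : w ∈ c.support := by simpa using hw
  have hc' := hc.rotate hw'
  have hne := hc'.snd_ne_penultimate
  apply hne
  have hnn : ¬ (c.rotate w hw').Nil := hc'.not_nil
  have hmem : ∀ x ∈ (c.rotate w hw').support, x ∈ c.support := by
    intro x hx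
    simpa using hx
  have h1 : (c.rotate w hw').snd ∈ c.support := hmem _ (Walk.getVert_mem_support _ _)
  have h2 : (c.rotate w hw').penultimate ∈ c.support := hmem _ (Walk.getVert_mem_support _ _)
  have a1 : GG.Adj w (c.rotate w hw').snd := Walk.adj_snd hnn
  have a2 : GG.Adj w (c.rotate w hw').penultimate := (Walk.adj_penultimate hnn).symm
  apply Subtype.ext
  rw [par a1 (hmax _ (by simpa using h1)), par a2 (hmax _ (by simpa using h2))]

def TE (y : Fin 3) : V ≃ V where
  toFun u := ⟨T y u.1, T_ok y u.1 u.2⟩
  invFun u := ⟨T y u.1, T_ok y u.1 u.2⟩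
  left_inv u := Subtype.ext (T_inv y u.1 u.2)
  right_inv u := Subtype.ext (T_inv y u.1 u.2)

theorem TE_adj (y : Fin 3) (u v : V) (h : GG.Adj u v) : GG.Adj (TE y u) (TE y v) := by
  obtain ⟨x, hx⟩ := h
  refine ⟨x, ?_⟩
  show T y v.1 = a x (T y u.1)
  rw [hx, T_comm]

def TI (y : Fin 3) : GG ≃g GG where
  toEquiv := TE y
  map_rel_iff' := by
    intro u v
    constructor
    · intro h
      have h1 := TE_adj y _ _ h
      have e1 : TE y (TE y u) = u := (TE y).left_inv u
      have e2 : TE y (TE y v) = v := (TE y).left_inv v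
      rwa [e1, e2] at h1
    · exact TE_adj y u v

theorem trans_aut : ∀ (n : ℕ) (u : V), u.1.length = n → ∃ ψ : GG ≃g GG, ψ nilV = u := by
  intro n
  induction n using Nat.strong_induction_on with
  | _ n ih =>
    intro u hu
    by_cases h0 : u.1 = []
    · exact ⟨Iso.refl, Subtype.ext h0.symm⟩
    · obtain ⟨y, hy⟩ := T_short u.1 h0
      obtain ⟨ψ, hψ⟩ := ih (T y u.1).length (by omega) (TE y u) rfl
      refine ⟨ψ.trans (TI y), ?_⟩
      show TE y (ψ nilV) = u
      rw [hψ]
      exact (TE y).left_inv u

theorem tree : S_TREE := by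
  refine ⟨V, GG, inferInstance, ⟨?_, acyc⟩, ?_, ?_⟩
  · have : Nonempty V := ⟨nilV⟩
    refine ⟨?_⟩
    intro u v
    exact (reach _ u rfl).symm.trans (reach _ v rfl)
  · intro v
    have h1 : GG.neighborSet v = (fun x : Fin 3 => (⟨a x v.1, a_ok x v.2⟩ : V)) '' Set.univ := by
      ext w
      simp only [SimpleGraph.mem_neighborSet, Set.image_univ, Set.mem_range]
      constructor
      · rintro ⟨x, hx⟩
        exact ⟨x, Subtype.ext hx.symm⟩
      · rintro ⟨x, hx⟩
        exact ⟨x, by rw [← hx]⟩
    rw [h1, Set.ncard_image_of_injective, Set.ncard_univ]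
    · simp
    · intro x y hxy
      exact a_inj (Subtype.ext_iff.1 hxy)
  · intro u v huv
    obtain ⟨ψ, hψ⟩ := trans_aut _ u rfl
    have h1 : GG.Adj nilV (ψ.symm v) := by
      have h2 : ψ.symm u = nilV := by rw [← hψ]; simp
      rw [← h2]
      exact ψ.symm.map_adj_iff.2 huv
    obtain ⟨x, hx⟩ := h1
    have hx' : ψ.symm v = TE x nilV := Subtype.ext hx
    refine ⟨(ψ.symm.trans (TI x)).trans ψ, ?_, ?_⟩
    · show ψ (TE x (ψ.symm u)) = v
      have h2 : ψ.symm u = nilV := by rw [← hψ]; simp
      rw [h2, ← hx']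
      simp
    · show ψ (TE x (ψ.symm v)) = u
      have h3 : TE x (TE x nilV) = nilV := (TE x).left_inv nilV
      rw [hx', h3, hψ]

end Pool.Agent.W770.FT
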